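import Pool.Agent.Helper26.LU.Goals

/-!
# Project LU, goal G3: the radial function of a convex body
-/

namespace Pool.Agent.Helper59.LU

open Pool.Agent.Helper26.LU Matrix Topology

theorem gG3 : G_G3 := by
  intro K ε hc hK h0 _ _ hbd
  have hn : K ∈ 𝓝 (0 : V) := mem_interior_iff_mem_nhds.1 h0
  have hpos : ∀ x : V, x ≠ 0 → 0 < gauge K x := fun x hx =>
    (gauge_pos (absorbent_nhds_zero hn)
      (NormedSpace.isVonNBounded_of_isBounded ℝ hK.isBounded)).2 hx
  have hfr : ∀ x : V, x ∈ frontier K ↔ gauge K x = 1 := fun x =>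
    (gauge_eq_one_iff_mem_frontier hc hn).symm
  have hne : ∀ u ∈ sph, u ≠ 0 := by
    intro u hu h
    have h1 : u ⬝ᵥ u = 1 := hu
    rw [h] at h1
    simp at h1
  have hmem : ∀ u ∈ sph, (gauge K u)⁻¹ • u ∈ frontier K := by
    intro u hu
    have hg := hpos u (hne u hu)
    rw [hfr, gauge_smul_of_nonneg (inv_nonneg.2 hg.le), smul_eq_mul, inv_mul_cancel₀ hg.ne']
  refine ⟨fun u hu => ⟨inv_pos.2 (hpos u (hne u hu)), hmem u hu, ?_⟩, fun x hx => ?_⟩
  · have h1 := hbd _ (hmem u hu)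
    have h2 : u ⬝ᵥ u = 1 := hu
    rw [smul_dotProduct, dotProduct_smul, h2, smul_eq_mul, smul_eq_mul, mul_one, ← pow_two] at h1
    exact h1
  · have hx1 : gauge K x = 1 := (hfr x).1 hx
    have hx0 : x ≠ 0 := by
      rintro rfl
      rw [gauge_zero] at hx1
      exact zero_ne_one hx1
    refine ⟨hx0, ?_⟩
    have hn := nrm_pos hx0
    have h3 : gauge K (proj x) = (nrm x)⁻¹ := by
      rw [proj, gauge_smul_of_nonneg (inv_nonneg.2 hn.le), hx1, smul_eq_mul, mul_one]
    rw [h3, inv_inv]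
    exact (nrm_proj x hx0).symm

end Pool.Agent.Helper59.LU
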